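import Pool.Agent.Helper64.IG.Goals

/-!
# MP_d01c92_ag, packet ACT: the monomial group acts on the points of the infinite Grassmannian
-/

set_option autoImplicit false

open scoped BigOperators

universe u

namespace Pool.Agent.Helper64.IG.PkACT

variable {K : Type u} [Field K]

theorem inc_inj {n p m q : ℕ} (hn : n ≤ m) (hp : p ≤ q) : Function.Injective (inc hn hp) := by
  unfold inc
  exact Sum.map_injective.mpr ⟨Fin.castLE_injective hn, Fin.castLE_injective hp⟩

theorem inc_inc {n p m q m' q' : ℕ} (hn : n ≤ m) (hp : p ≤ q) (hm : m ≤ m') (hq : q ≤ q')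
    (i : Ix n p) : inc hm hq (inc hn hp i) = inc (hn.trans hm) (hp.trans hq) i := by
  unfold inc
  cases i <;> rfl

theorem s_inc {n p m q : ℕ} (g : Mono K n p) (hn : n ≤ m) (hp : p ≤ q) (j : Ix n p) :
    g.s hn hp (inc hn hp j) = inc hn hp (g.σ j) := by
  unfold Mono.s
  have h : ∃ j', inc hn hp j' = inc hn hp j := ⟨j, rfl⟩
  rw [dif_pos h, inc_inj hn hp h.choose_spec]

theorem c_inc {n p m q : ℕ} (g : Mono K n p) (hn : n ≤ m) (hp : p ≤ q) (j : Ix n p) :
    g.c hn hp (inc hn hp j) = g.t j := by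
  unfold Mono.c
  have h : ∃ j', inc hn hp j' = inc hn hp j := ⟨j, rfl⟩
  rw [dif_pos h, inc_inj hn hp h.choose_spec]

theorem s_out {n p m q : ℕ} (g : Mono K n p) (hn : n ≤ m) (hp : p ≤ q) (i : Ix m q)
    (h : ¬ ∃ j, inc hn hp j = i) : g.s hn hp i = i := by
  unfold Mono.s
  rw [dif_neg h]

theorem c_out {n p m q : ℕ} (g : Mono K n p) (hn : n ≤ m) (hp : p ≤ q) (i : Ix m q)
    (h : ¬ ∃ j, inc hn hp j = i) : g.c hn hp i = 1 := by
  unfold Mono.c
  rw [dif_neg h]

theorem s_up {n p m q m' q' : ℕ} (g : Mono K n p) (hn : n ≤ m) (hp : p ≤ q) (hm : m ≤ m')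
    (hq : q ≤ q') (i : Ix m q) :
    g.s (hn.trans hm) (hp.trans hq) (inc hm hq i) = inc hm hq (g.s hn hp i) := by
  by_cases h : ∃ j, inc hn hp j = i
  · obtain ⟨j, rfl⟩ := h
    rw [s_inc, inc_inc, s_inc, inc_inc]
  · rw [s_out g hn hp i h, s_out]
    rintro ⟨j, hj⟩
    rw [← inc_inc hn hp hm hq] at hj
    exact h ⟨j, inc_inj hm hq hj⟩

theorem c_up {n p m q m' q' : ℕ} (g : Mono K n p) (hn : n ≤ m) (hp : p ≤ q) (hm : m ≤ m')
    (hq : q ≤ q') (i : Ix m q) :
    g.c (hn.trans hm) (hp.trans hq) (inc hm hq i) = g.c hn hp i := by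
  by_cases h : ∃ j, inc hn hp j = i
  · obtain ⟨j, rfl⟩ := h
    rw [c_inc, inc_inc, c_inc]
  · rw [c_out g hn hp i h, c_out]
    rintro ⟨j, hj⟩
    rw [← inc_inc hn hp hm hq] at hj
    exact h ⟨j, inc_inj hm hq hj⟩

theorem last_out {n p m q : ℕ} (hn : n ≤ m) (hp : p ≤ q) (hp' : p ≤ q + 1) :
    ¬ ∃ j : Ix n p, inc hn hp' j = (Sum.inr (Fin.last q) : Ix m (q + 1)) := by
  rintro ⟨j, hj⟩
  unfold inc at hj
  cases j with
  | inl i => simp at hj
  | inr i =>
    simp only [Sum.map_inr, Sum.inr.injEq] at hj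
    have h := congrArg Fin.val hj
    simp only [Fin.val_castLE, Fin.val_last] at h
    have := i.isLt
    omega

/-! ### `xi` and `theta` -/

omit [Field K] in
theorem xi_theta {n p : ℕ} (ω : Form K (n + 1) (p + 1)) : xi (theta ω) = theta (xi ω) := by
  funext a
  unfold xi theta
  congr 1
  funext j
  refine Fin.cases ?_ (fun j => ?_) j
  · simp [inc]
  · simp only [Fin.cons_succ, Function.comp]
    rw [inc_inc, inc_inc]

theorem IsDec.xi {n p : ℕ} (ω : Form K (n + 1) p) (h : IsDec ω) : IsDec (xi ω) := by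
  obtain ⟨c, φ, h⟩ := h
  refine ⟨c, fun i e => φ i (inc (Nat.le_succ n) le_rfl e), fun a => ?_⟩
  exact h _

theorem det_red {p : ℕ} (A : Matrix (Fin (p + 1)) (Fin (p + 1)) K) (i0 : Fin (p + 1))
    (h0 : A i0 0 ≠ 0) :
    A.det = ((-1) ^ (i0 : ℕ) * A i0 0) * Matrix.det (fun (i : Fin p) (j : Fin p) =>
      A (i0.succAbove i) j.succ - A (i0.succAbove i) 0 / A i0 0 * A i0 j.succ) := by
  classical
  let c : Fin (p + 1) → K := fun i => if i = i0 then 0 else A i 0 / A i0 0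
  let B : Matrix (Fin (p + 1)) (Fin (p + 1)) K := fun i j => A i j - c i * A i0 j
  have hc0 : c i0 = 0 := by simp [c]
  have hAB : A.det = B.det := by
    apply Matrix.det_eq_of_forall_row_eq_smul_add_const c i0 hc0
    intro i j
    simp only [B]
    rw [hc0]
    ring
  rw [hAB, Matrix.det_succ_column_zero]
  rw [Finset.sum_eq_single i0]
  · have h1 : B i0 0 = A i0 0 := by simp [B, hc0]
    rw [h1]
    congr 2
    funext i j
    simp only [Matrix.submatrix_apply, B]
    have : c (i0.succAbove i) = A (i0.succAbove i) 0 / A i0 0 := by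
      simp only [c]
      rw [if_neg (Fin.succAbove_ne i0 i)]
    rw [this]
  · intro i _ hi
    have h1 : B i 0 = 0 := by
      simp only [B, c]
      rw [if_neg hi]
      field_simp
      ring
    rw [h1]
    ring
  · intro h
    exact absurd (Finset.mem_univ i0) h

theorem IsDec.theta {n p : ℕ} (ω : Form K n (p + 1)) (h : IsDec ω) : IsDec (theta ω) := by
  obtain ⟨c, φ, h⟩ := h
  by_cases h0 : ∃ i0, φ i0 (Sum.inr (Fin.last p)) ≠ 0
  · obtain ⟨i0, h0⟩ := h0
    refine ⟨c * ((-1) ^ (i0 : ℕ) * φ i0 (Sum.inr (Fin.last p))), fun i e =>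
      φ (i0.succAbove i) (inc le_rfl (Nat.le_succ p) e) -
        φ (i0.succAbove i) (Sum.inr (Fin.last p)) / φ i0 (Sum.inr (Fin.last p)) *
          φ i0 (inc le_rfl (Nat.le_succ p) e), fun a => ?_⟩
    show ω _ = _
    rw [h, mul_assoc]
    congr 1
    rw [det_red _ i0 (by simpa using h0)]
    simp
  · push Not at h0
    refine ⟨0, fun _ _ => 0, fun a => ?_⟩
    show ω _ = _
    rw [h, zero_mul]
    rw [Matrix.det_eq_zero_of_column_eq_zero 0 (fun i => by simpa using h0 i)]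
    ring

/-! ### The pull-back on large levels -/

/-- the pull-back at the level `(m, q) ≥ (n, p)`. -/
noncomputable def Y {n p m q : ℕ} (g : Mono K n p) (x : Pt K) (hm : n ≤ m) (hq : p ≤ q) :
    Form K m q :=
  fun a => (∏ j, g.c hm hq (a j)) * x.x m q (g.s hm hq ∘ a)

theorem Y_dec {n p m q : ℕ} (g : Mono K n p) (x : Pt K) (hm : n ≤ m) (hq : p ≤ q) :
    IsDec (Y g x hm hq) := by
  obtain ⟨c, φ, h⟩ := x.dec m q
  refine ⟨c, fun i e => g.c hm hq e * φ i (g.s hm hq e), fun a => ?_⟩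
  have h1 := Matrix.det_mul_row (fun j => g.c hm hq (a j))
    (fun i j => φ i (g.s hm hq (a j)) : Matrix (Fin q) (Fin q) K)
  have h2 : (fun i j => g.c hm hq (a j) * φ i (g.s hm hq (a j)) : Matrix (Fin q) (Fin q) K) =
    Matrix.of fun i j => g.c hm hq (a j) * φ i (g.s hm hq (a j)) := rfl
  show (∏ j, g.c hm hq (a j)) * x.x m q (g.s hm hq ∘ a) = _
  rw [h2, h1, h]
  simp only [Function.comp]
  ring

theorem Y_xi {n p m q : ℕ} (g : Mono K n p) (x : Pt K) (hm : n ≤ m) (hq : p ≤ q) :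
    xi (Y g x (hm.trans (Nat.le_succ m)) hq) = Y g x hm hq := by
  funext a
  show (∏ j, g.c _ _ (inc (Nat.le_succ m) le_rfl (a j))) *
    x.x (m + 1) q (g.s _ _ ∘ inc (Nat.le_succ m) le_rfl ∘ a) = _
  have h1 : ∀ j, g.c (hm.trans (Nat.le_succ m)) hq (inc (Nat.le_succ m) le_rfl (a j)) =
      g.c hm hq (a j) := fun j => c_up g hm hq (Nat.le_succ m) le_rfl (a j)
  have h2 : g.s (hm.trans (Nat.le_succ m)) hq ∘ inc (Nat.le_succ m) le_rfl ∘ a =
      inc (Nat.le_succ m) le_rfl ∘ (g.s hm hq ∘ a) := by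
    funext j
    exact s_up g hm hq (Nat.le_succ m) le_rfl (a j)
  rw [h2]
  have h3 : x.x (m + 1) q (inc (Nat.le_succ m) le_rfl ∘ (g.s hm hq ∘ a)) =
      x.x m q (g.s hm hq ∘ a) := congrFun (x.xi_eq m q) (g.s hm hq ∘ a)
  rw [h3]
  unfold Y
  congr 1
  exact Finset.prod_congr rfl (fun j _ => h1 j)

theorem Y_theta {n p m q : ℕ} (g : Mono K n p) (x : Pt K) (hm : n ≤ m) (hq : p ≤ q) :
    theta (Y g x hm (hq.trans (Nat.le_succ q))) = Y g x hm hq := by
  funext a
  show (∏ j, g.c hm (hq.trans (Nat.le_succ q))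
      ((Fin.cons (Sum.inr (Fin.last q)) (inc le_rfl (Nat.le_succ q) ∘ a) :
        Fin (q + 1) → Ix m (q + 1)) j)) *
    x.x m (q + 1) (g.s hm (hq.trans (Nat.le_succ q)) ∘
      (Fin.cons (Sum.inr (Fin.last q)) (inc le_rfl (Nat.le_succ q) ∘ a) :
        Fin (q + 1) → Ix m (q + 1))) = _
  rw [Fin.prod_univ_succ, Fin.cons_zero, c_out _ _ _ _ (last_out hm hq _), one_mul]
  have h2 : g.s hm (hq.trans (Nat.le_succ q)) ∘
      (Fin.cons (Sum.inr (Fin.last q)) (inc le_rfl (Nat.le_succ q) ∘ a) :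
        Fin (q + 1) → Ix m (q + 1)) =
      Fin.cons (Sum.inr (Fin.last q)) (inc le_rfl (Nat.le_succ q) ∘ (g.s hm hq ∘ a)) := by
    funext j
    refine Fin.cases ?_ (fun j => ?_) j
    · simp only [Function.comp, Fin.cons_zero]
      exact s_out _ _ _ _ (last_out hm hq _)
    · simp only [Function.comp, Fin.cons_succ]
      exact s_up g hm hq le_rfl (Nat.le_succ q) (a j)
  rw [h2]
  have h3 : x.x m (q + 1) (Fin.cons (Sum.inr (Fin.last q))
      (inc le_rfl (Nat.le_succ q) ∘ (g.s hm hq ∘ a))) =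
      x.x m q (g.s hm hq ∘ a) := congrFun (x.theta_eq m q) (g.s hm hq ∘ a)
  rw [h3]
  unfold Y
  congr 1
  apply Finset.prod_congr rfl
  intro j _
  rw [Fin.cons_succ]
  exact c_up g hm hq le_rfl (Nat.le_succ q) (a j)

/-- the family of all levels, with `0` at the levels that are not large. -/
noncomputable def Y' {n p : ℕ} (g : Mono K n p) (x : Pt K) (m q : ℕ) : Form K m q := by
  classical
  exact if h : n ≤ m ∧ p ≤ q then Y g x h.1 h.2 else fun _ => 0

theorem Y'_eq {n p m q : ℕ} (g : Mono K n p) (x : Pt K) (hm : n ≤ m) (hq : p ≤ q) :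
    Y' g x m q = Y g x hm hq := by
  unfold Y'
  rw [dif_pos ⟨hm, hq⟩]

/-- iterated restriction -/
noncomputable def Z {n p : ℕ} (g : Mono K n p) (x : Pt K) : ℕ → ∀ m q : ℕ, Form K m q
  | 0 => fun m q => Y' g x m q
  | i + 1 => fun m q => theta (xi (Z g x i (m + 1) (q + 1)))

theorem Z_dec {n p : ℕ} (g : Mono K n p) (x : Pt K) (i : ℕ) : ∀ m q : ℕ, n ≤ m + i →
    p ≤ q + i → IsDec (Z g x i m q) := by
  induction i with
  | zero =>
    intro m q hm hq
    rw [Nat.add_zero] at hm hq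
    show IsDec (Y' g x m q)
    rw [Y'_eq g x hm hq]
    exact Y_dec g x hm hq
  | succ i ih =>
    intro m q hm hq
    exact IsDec.theta _ (IsDec.xi _ (ih (m + 1) (q + 1) (by omega) (by omega)))

theorem Z_xi {n p : ℕ} (g : Mono K n p) (x : Pt K) (i : ℕ) : ∀ m q : ℕ, n ≤ m + i →
    p ≤ q + i → xi (Z g x i (m + 1) q) = Z g x i m q := by
  induction i with
  | zero =>
    intro m q hm hq
    rw [Nat.add_zero] at hm hq
    show xi (Y' g x (m + 1) q) = Y' g x m q
    rw [Y'_eq g x hm hq, Y'_eq g x (Nat.le_trans hm (Nat.le_succ m)) hq]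
    exact Y_xi g x hm hq
  | succ i ih =>
    intro m q hm hq
    show xi (theta (xi (Z g x i (m + 1 + 1) (q + 1)))) = theta (xi (Z g x i (m + 1) (q + 1)))
    rw [xi_theta, ih (m + 1) (q + 1) (by omega) (by omega)]

theorem Z_theta {n p : ℕ} (g : Mono K n p) (x : Pt K) (i : ℕ) : ∀ m q : ℕ, n ≤ m + i →
    p ≤ q + i → theta (Z g x i m (q + 1)) = Z g x i m q := by
  induction i with
  | zero =>
    intro m q hm hq
    rw [Nat.add_zero] at hm hq
    show theta (Y' g x m (q + 1)) = Y' g x m q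
    rw [Y'_eq g x hm hq, Y'_eq g x hm (Nat.le_trans hq (Nat.le_succ q))]
    exact Y_theta g x hm hq
  | succ i ih =>
    intro m q hm hq
    show theta (theta (xi (Z g x i (m + 1) (q + 1 + 1)))) = theta (xi (Z g x i (m + 1) (q + 1)))
    rw [← xi_theta, ih (m + 1) (q + 1) (by omega) (by omega)]

theorem Z_step {n p : ℕ} (g : Mono K n p) (x : Pt K) (i : ℕ) (m q : ℕ) (hm : n ≤ m + i)
    (hq : p ≤ q + i) : Z g x (i + 1) m q = Z g x i m q := by
  show theta (xi (Z g x i (m + 1) (q + 1))) = _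
  rw [Z_xi g x i m (q + 1) hm (by omega), Z_theta g x i m q hm hq]

theorem Z_big {n p m q : ℕ} (g : Mono K n p) (x : Pt K) (hm : n ≤ m) (hq : p ≤ q) (i : ℕ) :
    Z g x i m q = Y g x hm hq := by
  induction i with
  | zero => exact Y'_eq g x hm hq
  | succ i ih => rw [Z_step g x i m q (by omega) (by omega), ih]

theorem act : G_ACT.{u} := by
  intro K _ n p g x
  refine ⟨⟨fun m q => Z g x (n + p) m q, fun m q => Z_dec g x _ m q (by omega) (by omega),
    fun m q => Z_xi g x _ m q (by omega) (by omega),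
    fun m q => Z_theta g x _ m q (by omega) (by omega)⟩, ?_⟩
  intro m q hm hq a
  show Z g x (n + p) m q a = _
  rw [Z_big g x hm hq]
  rfl

end Pool.Agent.Helper64.IG.PkACT
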